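import Pool.Agent.Q181.XR.Defs

/-!
# Periodic configurations and counting
-/

set_option autoImplicit false

open MeasureTheory Filter Topology

namespace Pool.Agent.Q181.XR

/-- The real number `0` or `1` attached to a bit. -/
def b (z : ZMod 2) : ℝ := if z = 0 then 0 else 1

lemma b_zero : b 0 = 0 := by simp [b]

lemma b_nonneg (z : ZMod 2) : 0 ≤ b z := by unfold b; split_ifs <;> norm_num

lemma b_le_one (z : ZMod 2) : b z ≤ 1 := by unfold b; split_ifs <;> norm_num

/-- The configuration which is one exactly at the multiples of `2^N`. -/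
def dl (N : ℕ) : X := fun j => if (2 ^ N : ℤ) ∣ j then 1 else 0

/-- Its images under the automaton. -/
def U (N k : ℕ) : X := F^[k] (dl N)

/-- Insert zeros at the odd positions. -/
def dbl (x : X) : X := fun j => if Even j then x (j / 2) else 0

lemma dbl_even (x : X) (s : ℤ) : dbl x (2 * s) = x s := by
  simp [dbl]

lemma dbl_odd (x : X) (s : ℤ) : dbl x (2 * s + 1) = 0 := by
  have : ¬ Even (2 * s + 1) := by
    rw [Int.not_even_iff_odd]; exact ⟨s, rfl⟩
  simp [dbl, this]

lemma ext_parity {x y : X} (h0 : ∀ s, x (2 * s) = y (2 * s)) (h1 : ∀ s, x (2 * s + 1) = y (2 * s + 1)) :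
    x = y := by
  funext j
  rcases Int.even_or_odd' j with ⟨s, rfl | rfl⟩
  · exact h0 s
  · exact h1 s

lemma zmod2_add_self (z : ZMod 2) : z + z = 0 := by
  revert z; decide

lemma F_F_dbl (x : X) : F (F (dbl x)) = dbl (F x) := by
  apply ext_parity
  · intro s
    simp only [F]
    rw [show 2 * s + 1 + 1 = 2 * (s + 1) by ring, dbl_even, dbl_even, dbl_odd, dbl_even]
    simp [F]
  · intro s
    simp only [F]
    rw [show 2 * s + 1 + 1 = 2 * (s + 1) by ring, dbl_odd, dbl_even, dbl_odd, dbl_odd]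
    simp [zmod2_add_self]

lemma dl_succ (N : ℕ) : dl (N + 1) = dbl (dl N) := by
  apply ext_parity
  · intro s
    rw [dbl_even]
    unfold dl
    have : (2 ^ (N + 1) : ℤ) ∣ 2 * s ↔ (2 ^ N : ℤ) ∣ s := by
      rw [pow_succ', mul_dvd_mul_iff_left (by norm_num)]
    simp only [this]
  · intro s
    rw [dbl_odd]
    unfold dl
    have : ¬ (2 ^ (N + 1) : ℤ) ∣ 2 * s + 1 := by
      intro h
      have h2 : (2 : ℤ) ∣ 2 * s + 1 := dvd_trans (dvd_pow_self 2 (Nat.succ_ne_zero N)) h
      omega
    simp only [this, if_false]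

lemma U_succ_even (N k : ℕ) : U (N + 1) (2 * k) = dbl (U N k) := by
  induction k with
  | zero => simp [U, dl_succ]
  | succ k ih =>
    unfold U at ih ⊢
    rw [show 2 * (k + 1) = (2 * k + 1) + 1 by ring, Function.iterate_succ_apply',
      Function.iterate_succ_apply', ih, F_F_dbl, Function.iterate_succ_apply']

lemma U_succ_odd (N k : ℕ) : U (N + 1) (2 * k + 1) = F (dbl (U N k)) := by
  rw [← U_succ_even]
  unfold U
  rw [Function.iterate_succ_apply']

lemma F_dbl_even (x : X) (s : ℤ) : F (dbl x) (2 * s) = x s := by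
  simp only [F]
  rw [dbl_even, dbl_odd, add_zero]

lemma F_dbl_odd (x : X) (s : ℤ) : F (dbl x) (2 * s + 1) = x (s + 1) := by
  simp only [F]
  rw [dbl_odd, show 2 * s + 1 + 1 = 2 * (s + 1) by ring, dbl_even, zero_add]

lemma U_zero (k : ℕ) : U 0 k = if k = 0 then (fun _ => (1 : ZMod 2)) else (fun _ => 0) := by
  induction k with
  | zero => funext j; simp [U, dl]
  | succ k ih =>
    unfold U at ih ⊢
    rw [Function.iterate_succ_apply', ih, if_neg (Nat.succ_ne_zero k)]
    split_ifs with h
    · funext j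
      exact zmod2_add_self 1
    · funext j
      simp [F]

lemma F_periodic {x : X} {M : ℤ} (h : ∀ j, x (j + M) = x j) : ∀ j, F x (j + M) = F x j := by
  intro j
  simp only [F]
  rw [h, show j + M + 1 = (j + 1) + M by ring, h]

lemma U_periodic (N k : ℕ) : ∀ j, U N k (j + 2 ^ N) = U N k j := by
  induction k with
  | zero =>
    intro j
    simp only [U, Function.iterate_zero, id_eq, dl, dvd_add_self_right]
  | succ k ih =>
    unfold U at ih ⊢
    rw [Function.iterate_succ_apply']
    exact F_periodic ih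

lemma sum_range_two_mul (M : ℕ) (f : ℕ → ℝ) :
    ∑ t ∈ Finset.range (2 * M), f t = ∑ s ∈ Finset.range M, (f (2 * s) + f (2 * s + 1)) := by
  induction M with
  | zero => simp
  | succ M ih =>
    rw [show 2 * (M + 1) = 2 * M + 1 + 1 by ring, Finset.sum_range_succ, Finset.sum_range_succ, ih,
      Finset.sum_range_succ]
    ring

lemma sum_range_shift {M : ℕ} {f : ℤ → ℝ} (h : ∀ j, f (j + M) = f j) (a : ℤ) :
    ∑ t ∈ Finset.range M, f (a + t) = ∑ t ∈ Finset.range M, f t := by
  have step : ∀ c : ℤ, ∑ t ∈ Finset.range M, f (c + 1 + t) = ∑ t ∈ Finset.range M, f (c + t) := by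
    intro c
    have h1 : ∑ t ∈ Finset.range (M + 1), f (c + t) = ∑ t ∈ Finset.range M, f (c + t) + f (c + M) :=
      Finset.sum_range_succ _ _
    have h2 : ∑ t ∈ Finset.range (M + 1), f (c + t) =
        ∑ t ∈ Finset.range M, f (c + ((t + 1 : ℕ) : ℤ)) + f (c + ((0 : ℕ) : ℤ)) :=
      Finset.sum_range_succ' _ _
    rw [h] at h1
    simp only [Nat.cast_add, Nat.cast_one, Nat.cast_zero, add_zero] at h2
    have h3 : ∑ t ∈ Finset.range M, f (c + 1 + t) = ∑ t ∈ Finset.range M, f (c + ((t : ℤ) + 1)) := by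
      refine Finset.sum_congr rfl fun t _ => ?_
      congr 1
      ring
    rw [h3]
    linarith
  induction a using Int.induction_on with
  | zero => simp
  | succ n ih => rw [step, ih]
  | pred n ih =>
    have := step (-n - 1)
    rw [show -(n : ℤ) - 1 + 1 = -n by ring, ih] at this
    exact this.symm

/-- The number of ones in a period. -/
noncomputable def cnt (N k : ℕ) : ℝ := ∑ t ∈ Finset.range (2 ^ N), b (U N k t)

lemma cnt_zero (k : ℕ) : cnt 0 k = if k = 0 then 1 else 0 := by
  unfold cnt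
  rw [U_zero]
  split_ifs <;> simp [b]

lemma cnt_succ_even (N k : ℕ) : cnt (N + 1) (2 * k) = cnt N k := by
  unfold cnt
  rw [pow_succ', sum_range_two_mul]
  refine Finset.sum_congr rfl fun s _ => ?_
  rw [U_succ_even]
  push_cast
  rw [dbl_even, dbl_odd, b_zero, add_zero]

lemma cnt_succ_odd (N k : ℕ) : cnt (N + 1) (2 * k + 1) = 2 * cnt N k := by
  unfold cnt
  rw [pow_succ', sum_range_two_mul, Finset.sum_add_distrib]
  have hA : ∑ s ∈ Finset.range (2 ^ N), b (U (N + 1) (2 * k + 1) ((2 * s : ℕ) : ℤ)) =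
      ∑ t ∈ Finset.range (2 ^ N), b (U N k t) := by
    refine Finset.sum_congr rfl fun s _ => ?_
    rw [U_succ_odd]
    push_cast
    rw [F_dbl_even]
  have hB : ∑ s ∈ Finset.range (2 ^ N), b (U (N + 1) (2 * k + 1) ((2 * s + 1 : ℕ) : ℤ)) =
      ∑ t ∈ Finset.range (2 ^ N), b (U N k t) := by
    have h := sum_range_shift (M := 2 ^ N) (f := fun j => b (U N k j))
      (fun j => by
        simp only [Nat.cast_pow, Nat.cast_ofNat]
        rw [U_periodic]) 1
    rw [← h]
    refine Finset.sum_congr rfl fun s _ => ?_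
    rw [U_succ_odd]
    push_cast
    rw [F_dbl_odd, add_comm]
  rw [hA, hB]
  ring

/-- The digit probabilities. -/
noncomputable def p (i : ℕ) : ℝ := 1 / ((i : ℝ) + 3)

lemma p_pos (i : ℕ) : 0 < p i := by unfold p; positivity

lemma p_le (i : ℕ) : p i ≤ 1 / 3 := by
  unfold p
  apply one_div_le_one_div_of_le (by norm_num)
  have : (0 : ℝ) ≤ i := Nat.cast_nonneg i
  linarith

lemma p_anti {i j : ℕ} (h : i ≤ j) : p j ≤ p i := by
  unfold p
  apply one_div_le_one_div_of_le (by positivity)
  have : (i : ℝ) ≤ j := by exact_mod_cast h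
  linarith

/-- The weights. -/
noncomputable def w : ℕ → ℕ → ℕ → ℝ
  | 0, _, _ => 1
  | N + 1, r, e => (if e % 2 = 1 then p r else (1 - p r) / 2) * w N (r + 1) (e / 2)

lemma w_even (N r e : ℕ) : w (N + 1) r (2 * e) = (1 - p r) / 2 * w N (r + 1) e := by
  rw [w]
  have h1 : ¬ (2 * e % 2 = 1) := by omega
  have h2 : 2 * e / 2 = e := by omega
  rw [if_neg h1, h2]

lemma w_odd (N r e : ℕ) : w (N + 1) r (2 * e + 1) = p r * w N (r + 1) e := by
  rw [w]
  have h1 : (2 * e + 1) % 2 = 1 := by omega
  have h2 : (2 * e + 1) / 2 = e := by omega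
  rw [if_pos h1, h2]

lemma w_nonneg (N : ℕ) : ∀ r e, 0 ≤ w N r e := by
  induction N with
  | zero => intro r e; simp [w]
  | succ N ih =>
    intro r e
    rw [w]
    refine mul_nonneg ?_ (ih _ _)
    split_ifs
    · exact (p_pos r).le
    · have := p_le r; linarith

/-- The total weight of the ones of the `n`-th image. -/
noncomputable def W (N r n : ℕ) : ℝ :=
  ∑ e ∈ Finset.range (2 ^ N), w N r e * cnt N (2 ^ N - 1 - e + n)

lemma W_zero (r n : ℕ) : W 0 r n = if n = 0 then 1 else 0 := by
  simp [W, w, cnt_zero]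

lemma W_even (N r n : ℕ) : W (N + 1) r (2 * n) = W N (r + 1) n := by
  unfold W
  rw [pow_succ', sum_range_two_mul]
  refine Finset.sum_congr rfl fun e he => ?_
  rw [Finset.mem_range] at he
  rw [w_even, w_odd, show 2 * 2 ^ N - 1 - 2 * e + 2 * n = 2 * (2 ^ N - 1 - e + n) + 1 by omega,
    show 2 * 2 ^ N - 1 - (2 * e + 1) + 2 * n = 2 * (2 ^ N - 1 - e + n) by omega, cnt_succ_odd,
    cnt_succ_even]
  ring

lemma W_odd (N r n : ℕ) : W (N + 1) r (2 * n + 1) =
    2 * p r * W N (r + 1) n + (1 - p r) / 2 * W N (r + 1) (n + 1) := by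
  unfold W
  rw [pow_succ', sum_range_two_mul, Finset.mul_sum, Finset.mul_sum, ← Finset.sum_add_distrib]
  refine Finset.sum_congr rfl fun e he => ?_
  rw [Finset.mem_range] at he
  rw [w_even, w_odd,
    show 2 * 2 ^ N - 1 - 2 * e + (2 * n + 1) = 2 * (2 ^ N - 1 - e + (n + 1)) by omega,
    show 2 * 2 ^ N - 1 - (2 * e + 1) + (2 * n + 1) = 2 * (2 ^ N - 1 - e + n) + 1 by omega,
    cnt_succ_odd, cnt_succ_even]
  ring

lemma cnt_nonneg (N k : ℕ) : 0 ≤ cnt N k := Finset.sum_nonneg fun _ _ => b_nonneg _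

lemma W_nonneg (N r n : ℕ) : 0 ≤ W N r n :=
  Finset.sum_nonneg fun _ _ => mul_nonneg (w_nonneg _ _ _) (cnt_nonneg _ _)

lemma W_at_zero (N : ℕ) : ∀ r, W N r 0 = 1 := by
  induction N with
  | zero => intro r; simp [W_zero]
  | succ N ih => intro r; exact (W_even N r 0).trans (ih _)

/-- The decay estimate. -/
lemma W_le (N : ℕ) : ∀ r n, 1 ≤ n → W N r n ≤ 4 * p (r + Nat.log 2 n) := by
  induction N with
  | zero =>
    intro r n hn
    rw [W_zero, if_neg (by omega)]
    have := p_pos (r + Nat.log 2 n)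
    linarith
  | succ N ih =>
    intro r n hn
    rcases Nat.even_or_odd' n with ⟨m, rfl | rfl⟩
    · rw [W_even]
      have hm : 1 ≤ m := by omega
      have h1 := ih (r + 1) m hm
      have h2 : Nat.log 2 (2 * m) = Nat.log 2 m + 1 := by
        rw [mul_comm]; exact Nat.log_mul_base (by norm_num) (by omega)
      rw [h2, show r + (Nat.log 2 m + 1) = r + 1 + Nat.log 2 m by ring]
      exact h1
    · rw [W_odd]
      have hp0 := p_pos r
      have hp1 := p_le r
      rcases Nat.eq_zero_or_pos m with rfl | hm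
      · rw [W_at_zero]
        have h1 := ih (r + 1) (0 + 1) (by omega)
        have h3 : p (r + 1 + Nat.log 2 (0 + 1)) ≤ p r := p_anti (by omega)
        have h4 : Nat.log 2 (2 * 0 + 1) = 0 := by simp
        rw [h4, add_zero]
        have h5 := W_nonneg N (r + 1) (0 + 1)
        nlinarith
      · have h1 := ih (r + 1) m hm
        have h2 := ih (r + 1) (m + 1) (by omega)
        have h3 : Nat.log 2 (2 * m + 1) = Nat.log 2 m + 1 := by
          have h6 : (2 * m + 1) / 2 = m := by omega
          rw [Nat.log_of_one_lt_of_le (by norm_num) (by omega), h6]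
        have h4 : p (r + 1 + Nat.log 2 (m + 1)) ≤ p (r + 1 + Nat.log 2 m) :=
          p_anti (by
            have h10 : Nat.log 2 m ≤ Nat.log 2 (m + 1) := Nat.log_mono_right (Nat.le_succ m)
            omega)
        rw [h3, show r + (Nat.log 2 m + 1) = r + 1 + Nat.log 2 m by ring]
        have h5 : W N (r + 1) (m + 1) ≤ 4 * p (r + 1 + Nat.log 2 m) := by linarith
        have h7 := p_pos (r + 1 + Nat.log 2 m)
        have h8 : 2 * p r * W N (r + 1) m ≤ 2 * p r * (4 * p (r + 1 + Nat.log 2 m)) :=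
          mul_le_mul_of_nonneg_left h1 (by linarith)
        have h9 : (1 - p r) / 2 * W N (r + 1) (m + 1) ≤
            (1 - p r) / 2 * (4 * p (r + 1 + Nat.log 2 m)) :=
          mul_le_mul_of_nonneg_left h5 (by linarith)
        nlinarith

/-- The bound for the number of ones in a window of length `2^k`. -/
def ρ : ℕ → ℕ → ℝ
  | 0, _ => 1
  | k + 1, e => (if e % 2 = 1 then 1 else 2) * ρ k (e / 2)

lemma ρ_nonneg (k : ℕ) : ∀ e, 0 ≤ ρ k e := by
  induction k with
  | zero => intro e; simp [ρ]
  | succ k ih =>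
    intro e
    rw [ρ]
    refine mul_nonneg ?_ (ih _)
    split_ifs <;> norm_num

lemma window (N : ℕ) : ∀ (k e : ℕ) (a : ℤ), k ≤ N → e < 2 ^ N →
    ∑ j ∈ Finset.range (2 ^ k), b (U N (2 ^ N - 1 - e) (a + j)) ≤ ρ k e := by
  induction N with
  | zero =>
    intro k e a hk he
    obtain rfl : k = 0 := by omega
    simp only [pow_zero, Finset.range_one, Finset.sum_singleton, ρ]
    exact b_le_one _
  | succ N ih =>
    intro k e a hk he
    rcases k with _ | k
    · simp only [pow_zero, Finset.range_one, Finset.sum_singleton, ρ]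
      exact b_le_one _
    · rw [pow_succ', sum_range_two_mul, ρ]
      have hk' : k ≤ N := by omega
      rw [pow_succ'] at he
      rcases Nat.even_or_odd' e with ⟨m, rfl | rfl⟩
      · have h1 : ¬ (2 * m % 2 = 1) := by omega
        have h2 : 2 * m / 2 = m := by omega
        have hm : m < 2 ^ N := by omega
        have h3 : 2 ^ (N + 1) - 1 - 2 * m = 2 * (2 ^ N - 1 - m) + 1 := by
          rw [pow_succ']; omega
        rw [if_neg h1, h2, h3, U_succ_odd]
        rcases Int.even_or_odd' a with ⟨c, rfl | rfl⟩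
        · have e1 := ih k m c hk' hm
          have e2 := ih k m (c + 1) hk' hm
          rw [Finset.sum_add_distrib]
          have s1 : ∑ s ∈ Finset.range (2 ^ k),
              b (F (dbl (U N (2 ^ N - 1 - m))) (2 * c + ((2 * s : ℕ) : ℤ))) =
              ∑ s ∈ Finset.range (2 ^ k), b (U N (2 ^ N - 1 - m) (c + s)) := by
            refine Finset.sum_congr rfl fun s _ => ?_
            push_cast
            rw [show 2 * c + 2 * (s : ℤ) = 2 * (c + s) by ring, F_dbl_even]
          have s2 : ∑ s ∈ Finset.range (2 ^ k),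
              b (F (dbl (U N (2 ^ N - 1 - m))) (2 * c + ((2 * s + 1 : ℕ) : ℤ))) =
              ∑ s ∈ Finset.range (2 ^ k), b (U N (2 ^ N - 1 - m) (c + 1 + s)) := by
            refine Finset.sum_congr rfl fun s _ => ?_
            push_cast
            rw [show 2 * c + (2 * (s : ℤ) + 1) = 2 * (c + s) + 1 by ring, F_dbl_odd,
              show c + (s : ℤ) + 1 = c + 1 + s by ring]
          rw [s1, s2]
          linarith
        · have e2 := ih k m (c + 1) hk' hm
          rw [Finset.sum_add_distrib]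
          have s1 : ∑ s ∈ Finset.range (2 ^ k),
              b (F (dbl (U N (2 ^ N - 1 - m))) (2 * c + 1 + ((2 * s : ℕ) : ℤ))) =
              ∑ s ∈ Finset.range (2 ^ k), b (U N (2 ^ N - 1 - m) (c + 1 + s)) := by
            refine Finset.sum_congr rfl fun s _ => ?_
            push_cast
            rw [show 2 * c + 1 + 2 * (s : ℤ) = 2 * (c + s) + 1 by ring, F_dbl_odd,
              show c + (s : ℤ) + 1 = c + 1 + s by ring]
          have s2 : ∑ s ∈ Finset.range (2 ^ k),
              b (F (dbl (U N (2 ^ N - 1 - m))) (2 * c + 1 + ((2 * s + 1 : ℕ) : ℤ))) =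
              ∑ s ∈ Finset.range (2 ^ k), b (U N (2 ^ N - 1 - m) (c + 1 + s)) := by
            refine Finset.sum_congr rfl fun s _ => ?_
            push_cast
            rw [show 2 * c + 1 + (2 * (s : ℤ) + 1) = 2 * (c + 1 + s) by ring, F_dbl_even]
          rw [s1, s2]
          linarith
      · have h1 : (2 * m + 1) % 2 = 1 := by omega
        have h2 : (2 * m + 1) / 2 = m := by omega
        have hm : m < 2 ^ N := by omega
        have h3 : 2 ^ (N + 1) - 1 - (2 * m + 1) = 2 * (2 ^ N - 1 - m) := by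
          rw [pow_succ']; omega
        rw [if_pos h1, h2, h3, U_succ_even, one_mul]
        rcases Int.even_or_odd' a with ⟨c, rfl | rfl⟩
        · refine le_of_eq_of_le ?_ (ih k m c hk' hm)
          refine Finset.sum_congr rfl fun s _ => ?_
          push_cast
          rw [show 2 * c + 2 * (s : ℤ) = 2 * (c + s) by ring, dbl_even,
            show 2 * c + (2 * (s : ℤ) + 1) = 2 * (c + s) + 1 by ring, dbl_odd, b_zero, add_zero]
        · refine le_of_eq_of_le ?_ (ih k m (c + 1) hk' hm)
          refine Finset.sum_congr rfl fun s _ => ?_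
          push_cast
          rw [show 2 * c + 1 + 2 * (s : ℤ) = 2 * (c + s) + 1 by ring, dbl_odd,
            show 2 * c + 1 + (2 * (s : ℤ) + 1) = 2 * (c + 1 + s) by ring, dbl_even, b_zero,
            zero_add]

/-- The total weight with the window bound. -/
noncomputable def V (N r k : ℕ) : ℝ :=
  ∑ e ∈ Finset.range (2 ^ N), w N r e * (cnt N (2 ^ N - 1 - e) * ρ k e)

lemma V_zero (N r : ℕ) : V N r 0 = 1 := by
  rw [← W_at_zero N r]
  simp [V, W, ρ]

lemma V_succ (N r k : ℕ) : V (N + 1) r (k + 1) = (2 - p r) * V N (r + 1) k := by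
  unfold V
  rw [pow_succ', sum_range_two_mul, Finset.mul_sum]
  refine Finset.sum_congr rfl fun e he => ?_
  rw [Finset.mem_range] at he
  rw [w_even, w_odd, show 2 * 2 ^ N - 1 - 2 * e = 2 * (2 ^ N - 1 - e) + 1 by omega,
    show 2 * 2 ^ N - 1 - (2 * e + 1) = 2 * (2 ^ N - 1 - e) by omega, cnt_succ_odd,
    cnt_succ_even, ρ, ρ]
  have h1 : ¬ (2 * e % 2 = 1) := by omega
  have h2 : 2 * e / 2 = e := by omega
  have h3 : (2 * e + 1) % 2 = 1 := by omega
  have h4 : (2 * e + 1) / 2 = e := by omega
  rw [if_neg h1, h2, if_pos h3, h4]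
  ring

/-- The product which bounds the averages. -/
noncomputable def prodp (r k : ℕ) : ℝ := ∏ i ∈ Finset.range k, (2 - p (r + i))

lemma V_eq (k : ℕ) : ∀ N r, k ≤ N → V N r k = prodp r k := by
  induction k with
  | zero => intro N r _; simp [V_zero, prodp]
  | succ k ih =>
    intro N r hN
    obtain ⟨M, rfl⟩ : ∃ M, N = M + 1 := ⟨N - 1, by omega⟩
    rw [V_succ, ih M (r + 1) (by omega)]
    unfold prodp
    rw [Finset.prod_range_succ', mul_comm]
    congr 1
    refine Finset.prod_congr rfl fun i _ => ?_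
    rw [show r + 1 + i = r + (i + 1) by ring]

end Pool.Agent.Q181.XR
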