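import Pool.Agent.Q181.XR.Alg

/-!
# The approximating measures
-/

set_option autoImplicit false

open MeasureTheory Filter Topology

namespace Pool.Agent.Q181.XR

/-- The sign of a bit. -/
def sg (z : ZMod 2) : ℝ := if z = 0 then 1 else -1

lemma sg_eq (z : ZMod 2) : sg z = 1 - 2 * b z := by
  unfold sg b; split_ifs <;> norm_num

lemma zmod2_cases (z : ZMod 2) : z = 0 ∨ z = 1 := by revert z; decide

lemma sg_add (y z : ZMod 2) : sg (y + z) = sg y * sg z := by
  have h11 : (1 : ZMod 2) + 1 = 0 := by decide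
  have h1 : (1 : ZMod 2) ≠ 0 := by decide
  rcases zmod2_cases y with rfl | rfl <;> rcases zmod2_cases z with rfl | rfl <;>
    simp [sg, h11]

lemma sg_zero : sg 0 = 1 := by simp [sg]

lemma b_add (y z : ZMod 2) : b (y + z) = b y + b z - 2 * (b y * b z) := by
  have := sg_add y z
  rw [sg_eq, sg_eq, sg_eq] at this
  linarith

lemma b_add_le (y z : ZMod 2) : b (y + z) ≤ b y + b z := by
  rw [b_add]
  have := mul_nonneg (b_nonneg y) (b_nonneg z)
  linarith

lemma sg_sum {ι : Type*} (s : Finset ι) (f : ι → ZMod 2) : sg (∑ i ∈ s, f i) = ∏ i ∈ s, sg (f i) := by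
  classical
  induction s using Finset.induction_on with
  | empty => simp [sg_zero]
  | insert a s ha ih => rw [Finset.sum_insert ha, Finset.prod_insert ha, sg_add, ih]

lemma b_sum_le {ι : Type*} (s : Finset ι) (f : ι → ZMod 2) : b (∑ i ∈ s, f i) ≤ ∑ i ∈ s, b (f i) := by
  classical
  induction s using Finset.induction_on with
  | empty => simp [b_zero]
  | insert a s ha ih =>
    rw [Finset.sum_insert ha, Finset.sum_insert ha]
    exact (b_add_le _ _).trans (by linarith)

/-- The probability of `true` or `false`. -/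
noncomputable def pr (c : ℝ) (t : Bool) : ℝ :=
  if t then (1 - Real.exp (-2 * c)) / 2 else (1 + Real.exp (-2 * c)) / 2

lemma pr_nonneg {c : ℝ} (hc : 0 ≤ c) (t : Bool) : 0 ≤ pr c t := by
  unfold pr
  have h1 : Real.exp (-2 * c) ≤ 1 := Real.exp_le_one_iff.2 (by linarith)
  have h2 := Real.exp_pos (-2 * c)
  split_ifs <;> linarith

/-- The superposition measure of finitely many configurations. -/
lemma exists_superposition {ι : Type} [Fintype ι] [DecidableEq ι] (c : ι → ℝ) (hc : ∀ i, 0 ≤ c i)
    (y : ι → X) : ∃ μ : ProbabilityMeasure X, ∀ l : X →+ ZMod 2,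
      ∫ x, sg (l x) ∂(μ : Measure X) = Real.exp (-2 * ∑ i, c i * b (l (y i))) := by
  classical
  let cf : (ι → Bool) → X := fun e => ∑ i, if e i then y i else 0
  let q : (ι → Bool) → ℝ := fun e => ∏ i, pr (c i) (e i)
  have hq : ∀ e, 0 ≤ q e := fun e => Finset.prod_nonneg fun i _ => pr_nonneg (hc i) _
  have key : ∀ g : ι → Bool → ℝ, ∑ e : ι → Bool, ∏ i, g i (e i) = ∏ i, (g i true + g i false) := by
    intro g
    have h1 := Finset.prod_univ_sum (fun _ : ι => (Finset.univ : Finset Bool)) g
    rw [Fintype.piFinset_univ] at h1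
    rw [← h1]
    refine Finset.prod_congr rfl fun i _ => ?_
    rw [Fintype.sum_bool]
  have hq1 : ∑ e, q e = 1 := by
    rw [key (fun i t => pr (c i) t)]
    refine Finset.prod_eq_one fun i _ => ?_
    simp only [pr]
    norm_num
    ring
  let μ : Measure X := ∑ e : ι → Bool, ENNReal.ofReal (q e) • Measure.dirac (cf e)
  have hμ : IsProbabilityMeasure μ := by
    constructor
    simp only [μ, Measure.coe_finsetSum, Finset.sum_apply, Measure.smul_apply,
      Measure.dirac_apply_of_mem (Set.mem_univ _), smul_eq_mul, mul_one]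
    rw [← ENNReal.ofReal_sum_of_nonneg (fun e _ => hq e), hq1, ENNReal.ofReal_one]
  refine ⟨⟨μ, hμ⟩, fun l => ?_⟩
  have h2 : ∫ x, sg (l x) ∂μ = ∑ e : ι → Bool, q e * sg (l (cf e)) := by
    rw [integral_finsetSum_measure]
    · refine Finset.sum_congr rfl fun e _ => ?_
      rw [integral_smul_measure, integral_dirac, ENNReal.toReal_ofReal (hq e), smul_eq_mul]
    · intro e _
      exact (integrable_dirac (by simp [sg])).smul_measure ENNReal.ofReal_ne_top
  change ∫ x, sg (l x) ∂μ = _
  rw [h2]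
  have h3 : ∀ e : ι → Bool, q e * sg (l (cf e)) =
      ∏ i, (pr (c i) (e i) * (if e i then sg (l (y i)) else 1)) := by
    intro e
    simp only [q, cf]
    rw [map_sum, sg_sum, ← Finset.prod_mul_distrib]
    refine Finset.prod_congr rfl fun i _ => ?_
    congr 1
    split_ifs
    · rfl
    · rw [map_zero, sg_zero]
  rw [Finset.sum_congr rfl (fun e _ => h3 e),
    key (fun i t => pr (c i) t * (if t then sg (l (y i)) else 1))]
  rw [Finset.mul_sum, Real.exp_sum]
  refine Finset.prod_congr rfl fun i _ => ?_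
  simp only [pr, if_true, Bool.false_eq_true, if_false, mul_one]
  rcases zmod2_cases (l (y i)) with h | h
  · rw [h]
    simp only [sg_zero, b_zero, mul_zero, Real.exp_zero]
    ring
  · have h1 : (1 : ZMod 2) ≠ 0 := by decide
    rw [h]
    simp only [sg, b, h1, if_false, mul_one]
    ring

/-- The configurations. -/
def conf (N e : ℕ) (t : ℤ) : X := fun j => U N (2 ^ N - 1 - e) (j + t)

/-- The exponent of the characters. -/
noncomputable def psi (N : ℕ) (l : X → ZMod 2) : ℝ :=
  ∑ e ∈ Finset.range (2 ^ N), w N 0 e * ∑ t ∈ Finset.range (2 ^ N), b (l (conf N e t))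

lemma exists_approx (N : ℕ) : ∃ μ : ProbabilityMeasure X, ∀ l : X →+ ZMod 2,
    ∫ x, sg (l x) ∂(μ : Measure X) = Real.exp (-2 * psi N l) := by
  obtain ⟨μ, hμ⟩ := exists_superposition (ι := Fin (2 ^ N) × Fin (2 ^ N))
    (fun i => w N 0 i.1) (fun i => w_nonneg _ _ _) (fun i => conf N i.1 (i.2 : ℕ))
  refine ⟨μ, fun l => ?_⟩
  rw [hμ l, Fintype.sum_prod_type]
  unfold psi
  congr 2
  rw [← Fin.sum_univ_eq_sum_range (fun e => w N 0 e *
    ∑ t ∈ Finset.range (2 ^ N), b (l (conf N e t)))]
  refine Finset.sum_congr rfl fun e _ => ?_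
  rw [← Fin.sum_univ_eq_sum_range (fun t => b (l (conf N e t))), Finset.mul_sum]

lemma psi_nonneg (N : ℕ) (l : X → ZMod 2) : 0 ≤ psi N l :=
  Finset.sum_nonneg fun _ _ => mul_nonneg (w_nonneg _ _ _) (Finset.sum_nonneg fun _ _ => b_nonneg _)

lemma shift_conf (N e : ℕ) (t : ℤ) : shift (conf N e t) = conf N e (1 + t) := by
  funext j
  simp only [shift, conf]
  rw [show j + 1 + t = j + (1 + t) by ring]

lemma conf_periodic (N e : ℕ) (t : ℤ) : conf N e (t + (2 ^ N : ℕ)) = conf N e t := by
  funext j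
  simp only [conf]
  push_cast
  rw [← add_assoc, U_periodic]

lemma psi_shift (N : ℕ) (l : X → ZMod 2) : psi N (fun x => l (shift x)) = psi N l := by
  unfold psi
  refine Finset.sum_congr rfl fun e _ => ?_
  congr 1
  have h := sum_range_shift (M := 2 ^ N) (f := fun t => b (l (conf N e t)))
    (fun t => by rw [conf_periodic]) 1
  rw [← h]
  refine Finset.sum_congr rfl fun t _ => ?_
  simp only [shift_conf]

lemma iter_F_conf (N e n : ℕ) (t : ℤ) : F^[n] (conf N e t) =
    fun j => U N (2 ^ N - 1 - e + n) (j + t) := by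
  induction n with
  | zero => rfl
  | succ n ih =>
    rw [Function.iterate_succ_apply', ih]
    funext j
    simp only [F]
    rw [show 2 ^ N - 1 - e + (n + 1) = (2 ^ N - 1 - e + n) + 1 by ring]
    conv_rhs => rw [U, Function.iterate_succ_apply']
    simp only [F, U]
    rw [show j + 1 + t = j + t + 1 by ring]

lemma psi_iter (N n : ℕ) (j : ℤ) : psi N (fun x => F^[n] x j) = W N 0 n := by
  unfold psi W
  refine Finset.sum_congr rfl fun e _ => ?_
  congr 1
  unfold cnt
  rw [← sum_range_shift (M := 2 ^ N) (f := fun i => b (U N (2 ^ N - 1 - e + n) i))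
    (fun i => by
      simp only [Nat.cast_pow, Nat.cast_ofNat]
      rw [U_periodic]) j]
  refine Finset.sum_congr rfl fun t _ => ?_
  simp only [iter_F_conf]

/-- The pair correlations. -/
noncomputable def cc (N : ℕ) (i j : ℤ) : ℝ :=
  ∑ e ∈ Finset.range (2 ^ N), w N 0 e * ∑ t ∈ Finset.range (2 ^ N),
    (b (conf N e t i) * b (conf N e t j))

lemma cc_sum (N k : ℕ) (hk : k ≤ N) (i j : ℤ) :
    ∑ n ∈ Finset.range (2 ^ k), cc N i (j + n) ≤ prodp 0 k := by
  rw [← V_eq k N 0 hk]
  unfold cc V
  rw [Finset.sum_comm]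
  refine Finset.sum_le_sum fun e he => ?_
  rw [Finset.mem_range] at he
  rw [← Finset.mul_sum]
  refine mul_le_mul_of_nonneg_left ?_ (w_nonneg _ _ _)
  rw [Finset.sum_comm]
  have h1 : ∀ t ∈ Finset.range (2 ^ N), ∑ n ∈ Finset.range (2 ^ k),
      b (conf N e t i) * b (conf N e t (j + n)) ≤ b (conf N e t i) * ρ k e := by
    intro t _
    rw [← Finset.mul_sum]
    refine mul_le_mul_of_nonneg_left ?_ (b_nonneg _)
    refine le_of_eq_of_le ?_ (window N k e (j + t) hk he)
    refine Finset.sum_congr rfl fun n _ => ?_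
    simp only [conf]
    rw [show j + (n : ℤ) + t = j + t + n by ring]
  refine (Finset.sum_le_sum h1).trans ?_
  rw [← Finset.sum_mul]
  refine le_of_eq ?_
  congr 1
  unfold cnt
  rw [← sum_range_shift (M := 2 ^ N) (f := fun i => b (U N (2 ^ N - 1 - e) i))
    (fun i => by
      simp only [Nat.cast_pow, Nat.cast_ofNat]
      rw [U_periodic]) i]
  rfl

/-- The additive functional of a finite set. -/
def lin (A : Finset ℤ) : X →+ ZMod 2 where
  toFun x := ∑ i ∈ A, x i
  map_zero' := by simp
  map_add' x y := by simp [Finset.sum_add_distrib]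

lemma lin_apply (A : Finset ℤ) (x : X) : lin A x = ∑ i ∈ A, x i := rfl

lemma shift_iter (n : ℕ) (x : X) (i : ℤ) : shift^[n] x i = x (i + n) := by
  induction n generalizing i with
  | zero => simp
  | succ n ih =>
    rw [Function.iterate_succ_apply', shift, ih]
    push_cast
    rw [show i + 1 + (n : ℤ) = i + (n + 1) by ring]

lemma psi_shift_iter (N n : ℕ) (l : X → ZMod 2) : psi N (fun x => l (shift^[n] x)) = psi N l := by
  induction n with
  | zero => rfl
  | succ n ih =>
    have := psi_shift N (fun x => l (shift^[n] x))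
    rw [ih] at this
    rw [← this]
    rfl

/-- The additive functional `l_A + l_B ∘ shift^n`. -/
def lin2 (A B : Finset ℤ) (n : ℕ) : X →+ ZMod 2 where
  toFun x := lin A x + lin B (shift^[n] x)
  map_zero' := by
    have : shift^[n] (0 : X) = 0 := by funext i; rw [shift_iter]; rfl
    rw [this, map_zero, map_zero, add_zero]
  map_add' x y := by
    have : shift^[n] (x + y) = shift^[n] x + shift^[n] y := by
      funext i
      rw [Pi.add_apply, shift_iter, shift_iter, shift_iter, Pi.add_apply]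
    rw [this, map_add, map_add]
    abel

lemma psi_lin2 (N : ℕ) (A B : Finset ℤ) (n : ℕ) :
    |psi N (lin2 A B n) - psi N (lin A) - psi N (lin B)| ≤
      2 * ∑ a ∈ A, ∑ c ∈ B, cc N a (c + n) := by
  have h1 : psi N (lin B) = psi N (fun x => lin B (shift^[n] x)) := (psi_shift_iter N n _).symm
  rw [h1]
  have h2 : psi N (lin2 A B n) - psi N (lin A) - psi N (fun x => lin B (shift^[n] x)) =
      - (2 * ∑ e ∈ Finset.range (2 ^ N), w N 0 e * ∑ t ∈ Finset.range (2 ^ N),
        (b (lin A (conf N e t)) * b (lin B (shift^[n] (conf N e t))))) := by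
    unfold psi
    rw [← Finset.sum_sub_distrib, ← Finset.sum_sub_distrib, Finset.mul_sum, ← Finset.sum_neg_distrib]
    refine Finset.sum_congr rfl fun e _ => ?_
    have h3 : ∀ t : ℕ, b (lin2 A B n (conf N e t)) = b (lin A (conf N e t)) +
        b (lin B (shift^[n] (conf N e t))) -
        2 * (b (lin A (conf N e t)) * b (lin B (shift^[n] (conf N e t)))) := by
      intro t
      change b (lin A _ + lin B _) = _
      rw [b_add]
    simp only [h3]
    rw [Finset.sum_sub_distrib, Finset.sum_add_distrib, ← Finset.mul_sum]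
    ring
  rw [h2, abs_neg, abs_mul, abs_two]
  refine mul_le_mul_of_nonneg_left ?_ (by norm_num)
  rw [abs_of_nonneg (Finset.sum_nonneg fun _ _ => mul_nonneg (w_nonneg _ _ _)
    (Finset.sum_nonneg fun _ _ => mul_nonneg (b_nonneg _) (b_nonneg _)))]
  have h4 : ∑ a ∈ A, ∑ c ∈ B, cc N a (c + n) = ∑ e ∈ Finset.range (2 ^ N), w N 0 e *
      ∑ t ∈ Finset.range (2 ^ N), ∑ a ∈ A, ∑ c ∈ B,
        (b (conf N e t a) * b (conf N e t (c + n))) := by
    unfold cc
    have e1 : ∀ a ∈ A, ∑ c ∈ B, ∑ e ∈ Finset.range (2 ^ N), w N 0 e *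
        ∑ t ∈ Finset.range (2 ^ N), (b (conf N e t a) * b (conf N e t (c + n))) =
        ∑ e ∈ Finset.range (2 ^ N), w N 0 e * ∑ t ∈ Finset.range (2 ^ N), ∑ c ∈ B,
          (b (conf N e t a) * b (conf N e t (c + n))) := by
      intro a _
      rw [Finset.sum_comm]
      refine Finset.sum_congr rfl fun e _ => ?_
      rw [← Finset.mul_sum, Finset.sum_comm]
    rw [Finset.sum_congr rfl e1, Finset.sum_comm]
    refine Finset.sum_congr rfl fun e _ => ?_
    rw [← Finset.mul_sum, Finset.sum_comm]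
  rw [h4]
  refine Finset.sum_le_sum fun e _ => mul_le_mul_of_nonneg_left ?_ (w_nonneg _ _ _)
  refine Finset.sum_le_sum fun t _ => ?_
  rw [lin_apply, lin_apply]
  have h5 : b (∑ i ∈ A, conf N e t i) ≤ ∑ i ∈ A, b (conf N e t i) := b_sum_le _ _
  have h6 : b (∑ i ∈ B, shift^[n] (conf N e t) i) ≤ ∑ i ∈ B, b (conf N e t (i + n)) := by
    refine (b_sum_le _ _).trans (le_of_eq ?_)
    refine Finset.sum_congr rfl fun i _ => ?_
    rw [shift_iter]
  calc _ ≤ (∑ i ∈ A, b (conf N e t i)) * ∑ i ∈ B, b (conf N e t (i + n)) :=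
        mul_le_mul h5 h6 (b_nonneg _) (Finset.sum_nonneg fun _ _ => b_nonneg _)
    _ = _ := by rw [Finset.sum_mul_sum]

end Pool.Agent.Q181.XR
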