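import Mathlib

/-!
# The XOR automaton: definitions
-/

set_option autoImplicit false

open MeasureTheory Filter Topology

namespace Pool.Agent.Q181.XR

/-- The space `{0,1}^ℤ`, with `{0,1}` the integers modulo two, and with the product topology. -/
abbrev X : Type := ℤ → ZMod 2

/-- The left shift. -/
def shift (x : X) : X := fun i => x (i + 1)

/-- The XOR cellular automaton. -/
def F (x : X) : X := fun i => x i + x (i + 1)

/-- Shift-invariant measures. -/
def ShiftInvariant (μ : Measure X) : Prop := μ.map shift = μ

/-- Weakly mixing measures. -/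
def WeaklyMixing (μ : Measure X) : Prop :=
  ∀ A B : Set X, MeasurableSet A → MeasurableSet B →
    Tendsto (fun N : ℕ => (1 / (N : ℝ)) *
      ∑ n ∈ Finset.range N, |μ.real (A ∩ (shift^[n]) ⁻¹' B) - μ.real A * μ.real B|) atTop (𝓝 0)

end Pool.Agent.Q181.XR
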