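import Pool.Agent.Q181.XR.Approx

/-!
# The limit measure
-/

set_option autoImplicit false

open MeasureTheory Filter Topology

namespace Pool.Agent.Q181.XR

/-- Cylinders. -/
def cylx (A : Finset ℤ) (z : X) : Set X := {x | ∀ i ∈ A, x i = z i}

/-- The collection of cylinders. -/
def cyls : Set (Set X) := {S | ∃ A z, S = cylx A z}

lemma measurableSet_cylx (A : Finset ℤ) (z : X) : MeasurableSet (cylx A z) := by
  have : cylx A z = ⋂ i ∈ A, (fun x : X => x i) ⁻¹' {z i} := by
    ext x; simp [cylx]
  rw [this]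
  exact MeasurableSet.biInter A.countable_toSet fun i _ =>
    measurable_pi_apply i (MeasurableSet.singleton _)

lemma isPiSystem_cyls : IsPiSystem cyls := by
  classical
  rintro _ ⟨A, z, rfl⟩ _ ⟨B, y, rfl⟩ ⟨x, hx1, hx2⟩
  refine ⟨A ∪ B, x, ?_⟩
  ext u
  constructor
  · rintro ⟨h1, h2⟩ i hi
    rcases Finset.mem_union.1 hi with h | h
    · rw [h1 i h, hx1 i h]
    · rw [h2 i h, hx2 i h]
  · intro h
    constructor
    · intro i hi
      rw [h i (Finset.mem_union_left _ hi), hx1 i hi]
    · intro i hi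
      rw [h i (Finset.mem_union_right _ hi), hx2 i hi]

lemma generateFrom_cyls : (inferInstance : MeasurableSpace X) = MeasurableSpace.generateFrom cyls := by
  apply le_antisymm
  · change MeasurableSpace.pi ≤ _
    unfold MeasurableSpace.pi
    refine iSup_le fun i => ?_
    rintro _ ⟨S, _, rfl⟩
    have h1 : (fun x : X => x i) ⁻¹' S = ⋃ z ∈ S, cylx {i} (fun _ => z) := by
      ext x; simp [cylx]
    change MeasurableSet[MeasurableSpace.generateFrom cyls] ((fun x : X => x i) ⁻¹' S)
    rw [h1]
    refine MeasurableSet.biUnion (Set.to_countable S) fun z _ => ?_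
    exact MeasurableSpace.measurableSet_generateFrom ⟨{i}, _, rfl⟩
  · refine MeasurableSpace.generateFrom_le ?_
    rintro _ ⟨A, z, rfl⟩
    exact measurableSet_cylx A z

/-- The indicator of a cylinder is a combination of characters. -/
lemma indicator_cylx (A : Finset ℤ) (z : X) (x : X) :
    (cylx A z).indicator (fun _ => (1 : ℝ)) x =
      ∑ B ∈ A.powerset, ((1 / 2) ^ A.card * sg (lin B z)) * sg (lin B x) := by
  classical
  have h1 : (cylx A z).indicator (fun _ => (1 : ℝ)) x =
      ∏ i ∈ A, ((1 / 2) * (1 + sg (x i) * sg (z i))) := by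
    by_cases hx : x ∈ cylx A z
    · rw [Set.indicator_of_mem hx]
      symm
      refine Finset.prod_eq_one fun i hi => ?_
      rw [hx i hi]
      rcases zmod2_cases (z i) with h | h <;> rw [h] <;> norm_num [sg]
    · rw [Set.indicator_of_notMem hx]
      simp only [cylx, Set.mem_ofPred_eq, not_forall] at hx
      obtain ⟨i, hi, hne⟩ := hx
      symm
      refine Finset.prod_eq_zero hi ?_
      rcases zmod2_cases (x i) with h | h <;> rcases zmod2_cases (z i) with h' | h'
      · exact absurd (h.trans h'.symm) hne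
      · rw [h, h']; norm_num [sg]
      · rw [h, h']; norm_num [sg]
      · exact absurd (h.trans h'.symm) hne
  rw [h1, Finset.prod_mul_distrib, Finset.prod_const]
  have h2 : ∏ i ∈ A, (1 + sg (x i) * sg (z i)) =
      ∑ B ∈ A.powerset, ∏ i ∈ B, (sg (x i) * sg (z i)) := by
    rw [Finset.prod_one_add]
  rw [h2, Finset.mul_sum]
  refine Finset.sum_congr rfl fun B _ => ?_
  rw [Finset.prod_mul_distrib, lin_apply, lin_apply, sg_sum, sg_sum]
  ring

lemma measurable_sg : Measurable sg := measurable_from_top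

lemma measurable_shift : Measurable shift :=
  measurable_pi_lambda _ fun i => measurable_pi_apply (i + 1)

lemma measurable_shift_iter (n : ℕ) : Measurable (shift^[n]) := measurable_shift.iterate n

lemma measurable_lin (A : Finset ℤ) : Measurable (fun x => lin A x) := by
  simp only [lin_apply]
  exact Finset.measurable_sum A fun i _ => measurable_pi_apply i

lemma abs_sg (z : ZMod 2) : |sg z| = 1 := by unfold sg; split_ifs <;> simp

lemma integrable_sg {μ : Measure X} [IsFiniteMeasure μ] {f : X → ZMod 2} (hf : Measurable f) :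
    Integrable (fun x => sg (f x)) μ := by
  refine Integrable.of_bound (measurable_sg.comp hf).aestronglyMeasurable 1 ?_
  exact Eventually.of_forall fun x => by rw [Real.norm_eq_abs]; exact (abs_sg _).le

lemma real_cylx (μ : Measure X) [IsFiniteMeasure μ] (A : Finset ℤ) (z : X) :
    μ.real (cylx A z) = ∑ B ∈ A.powerset, ((1 / 2) ^ A.card * sg (lin B z)) *
      ∫ x, sg (lin B x) ∂μ := by
  have h1 : μ.real (cylx A z) = ∫ x, (cylx A z).indicator (fun _ => (1 : ℝ)) x ∂μ := by
    rw [integral_indicator (measurableSet_cylx A z)]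
    simp
  rw [h1]
  simp only [indicator_cylx]
  rw [integral_finsetSum]
  · refine Finset.sum_congr rfl fun B _ => ?_
    rw [integral_const_mul]
  · intro B _
    exact (integrable_sg (measurable_lin B)).const_mul _

/-- Measures with the same characters are equal. -/
lemma ext_char (μ ν : Measure X) [IsProbabilityMeasure μ] [IsProbabilityMeasure ν]
    (h : ∀ A, ∫ x, sg (lin A x) ∂μ = ∫ x, sg (lin A x) ∂ν) : μ = ν := by
  refine ext_of_generate_finite cyls generateFrom_cyls isPiSystem_cyls ?_ (by simp)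
  rintro _ ⟨A, z, rfl⟩
  have h1 : μ.real (cylx A z) = ν.real (cylx A z) := by
    rw [real_cylx, real_cylx]
    refine Finset.sum_congr rfl fun B _ => ?_
    rw [h B]
  exact (measureReal_eq_measureReal_iff (measure_ne_top _ _) (measure_ne_top _ _)).1 h1

/-- The correlation of two sets. -/
noncomputable def cs (μ : Measure X) (n : ℕ) (A B : Set X) : ℝ :=
  μ.real (A ∩ (shift^[n]) ⁻¹' B) - μ.real A * μ.real B

/-- Cesàro convergence to zero of the absolute values. -/
def CZ (a : ℕ → ℝ) : Prop :=
  Tendsto (fun N : ℕ => (1 / (N : ℝ)) * ∑ n ∈ Finset.range N, |a n|) atTop (𝓝 0)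

lemma CZ.of_abs_le {a c : ℕ → ℝ} (hc : CZ c) (h : ∀ n, |a n| ≤ |c n|) : CZ a := by
  refine squeeze_zero (fun N => ?_) (fun N => ?_) hc
  · exact mul_nonneg (by positivity) (Finset.sum_nonneg fun _ _ => abs_nonneg _)
  · exact mul_le_mul_of_nonneg_left (Finset.sum_le_sum fun n _ => h n) (by positivity)

lemma CZ.add {a c : ℕ → ℝ} (ha : CZ a) (hc : CZ c) : CZ (fun n => a n + c n) := by
  have h := Tendsto.add ha hc
  rw [add_zero] at h
  refine squeeze_zero (fun N => ?_) (fun N => ?_) h
  · exact mul_nonneg (by positivity) (Finset.sum_nonneg fun _ _ => abs_nonneg _)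
  · rw [← mul_add, ← Finset.sum_add_distrib]
    exact mul_le_mul_of_nonneg_left (Finset.sum_le_sum fun n _ => abs_add_le _ _) (by positivity)

lemma CZ.const_mul {a : ℕ → ℝ} (ha : CZ a) (c : ℝ) : CZ (fun n => c * a n) := by
  have h := Tendsto.const_mul |c| ha
  rw [mul_zero] at h
  refine h.congr fun N => ?_
  rw [← mul_assoc, mul_comm |c|, mul_assoc, Finset.mul_sum]
  congr 1
  refine Finset.sum_congr rfl fun n _ => ?_
  rw [abs_mul]

lemma CZ.zero : CZ (fun _ => 0) := by
  unfold CZ
  simp

lemma CZ.sum {ι : Type*} (s : Finset ι) (a : ι → ℕ → ℝ) (h : ∀ i ∈ s, CZ (a i)) :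
    CZ (fun n => ∑ i ∈ s, a i n) := by
  classical
  induction s using Finset.induction_on with
  | empty => simpa using CZ.zero
  | insert i s hi ih =>
    simp only [Finset.sum_insert hi]
    exact (h i (Finset.mem_insert_self _ _)).add
      (ih fun j hj => h j (Finset.mem_insert_of_mem hj))

/-- A sequence which is within `ε` of a good sequence, for every `ε`, is good. -/
lemma CZ.of_approx {a : ℕ → ℝ} (h : ∀ ε > 0, ∃ c, CZ c ∧ ∀ n, |a n| ≤ |c n| + ε) : CZ a := by
  unfold CZ
  rw [Metric.tendsto_atTop]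
  intro ε hε
  obtain ⟨c, hc, hc2⟩ := h (ε / 2) (by linarith)
  obtain ⟨N0, hN0⟩ := (Metric.tendsto_atTop.1 hc) (ε / 2) (by linarith)
  refine ⟨N0 + 1, fun N hN => ?_⟩
  have h1 := hN0 N (by omega)
  rw [Real.dist_eq, sub_zero] at h1 ⊢
  have hnn : ∀ a' : ℕ → ℝ, 0 ≤ (1 / (N : ℝ)) * ∑ n ∈ Finset.range N, |a' n| := fun a' =>
    mul_nonneg (by positivity) (Finset.sum_nonneg fun _ _ => abs_nonneg _)
  rw [abs_of_nonneg (hnn _)] at h1 ⊢
  have hNpos : (0 : ℝ) < N := by exact_mod_cast (by omega : 0 < N)
  calc (1 / (N : ℝ)) * ∑ n ∈ Finset.range N, |a n|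
      ≤ (1 / (N : ℝ)) * ∑ n ∈ Finset.range N, (|c n| + ε / 2) :=
        mul_le_mul_of_nonneg_left (Finset.sum_le_sum fun n _ => hc2 n) (by positivity)
    _ = (1 / (N : ℝ)) * ∑ n ∈ Finset.range N, |c n| + ε / 2 := by
        rw [Finset.sum_add_distrib, Finset.sum_const, Finset.card_range, nsmul_eq_mul, mul_add]
        congr 1
        field_simp
    _ < ε := by linarith

set_option linter.unusedSectionVars false

section mixing

variable {μ : Measure X} [IsProbabilityMeasure μ]

lemma real_preimage (hμ : ShiftInvariant μ) (n : ℕ) {B : Set X} (hB : MeasurableSet B) :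
    μ.real ((shift^[n]) ⁻¹' B) = μ.real B := by
  have h1 : MeasurePreserving shift μ μ := ⟨measurable_shift, hμ⟩
  have h2 := h1.iterate n
  rw [measureReal_def, h2.measure_preimage hB.nullMeasurableSet, ← measureReal_def]

lemma cs_compl_right (_hμ : ShiftInvariant μ) (n : ℕ) {A B : Set X} (_hA : MeasurableSet A)
    (hB : MeasurableSet B) : cs μ n A Bᶜ = - cs μ n A B := by
  unfold cs
  have h1 : A ∩ (shift^[n]) ⁻¹' Bᶜ = A \ (shift^[n]) ⁻¹' B := by
    rw [Set.preimage_compl]; rfl
  have h2 := measureReal_inter_add_sdiff (μ := μ) (s := A) (t := (shift^[n]) ⁻¹' B)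
    (measurable_shift_iter n hB)
  rw [h1, probReal_compl_eq_one_sub hB]
  linarith

lemma cs_compl_left (hμ : ShiftInvariant μ) (n : ℕ) {A B : Set X} (hA : MeasurableSet A)
    (hB : MeasurableSet B) : cs μ n Aᶜ B = - cs μ n A B := by
  unfold cs
  have h2 := measureReal_inter_add_sdiff (μ := μ) (s := (shift^[n]) ⁻¹' B) (t := A) hA
  have h1 : Aᶜ ∩ (shift^[n]) ⁻¹' B = (shift^[n]) ⁻¹' B \ A := by
    rw [Set.inter_comm]; rfl
  rw [h1, probReal_compl_eq_one_sub hA]
  rw [real_preimage hμ n hB, Set.inter_comm] at h2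
  linarith

lemma abs_cs_le_right (hμ : ShiftInvariant μ) (n : ℕ) {A B : Set X} (hB : MeasurableSet B) :
    |cs μ n A B| ≤ μ.real B := by
  unfold cs
  have h1 : μ.real (A ∩ (shift^[n]) ⁻¹' B) ≤ μ.real B := by
    rw [← real_preimage hμ n hB]
    exact measureReal_mono Set.inter_subset_right
  have h2 : μ.real A * μ.real B ≤ μ.real B :=
    mul_le_of_le_one_left measureReal_nonneg measureReal_le_one
  have h3 : 0 ≤ μ.real (A ∩ (shift^[n]) ⁻¹' B) := measureReal_nonneg
  have h4 : 0 ≤ μ.real A * μ.real B := mul_nonneg measureReal_nonneg measureReal_nonneg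
  rw [abs_le]
  constructor <;> linarith

lemma abs_cs_le_left (n : ℕ) {A B : Set X} : |cs μ n A B| ≤ μ.real A := by
  unfold cs
  have h1 : μ.real (A ∩ (shift^[n]) ⁻¹' B) ≤ μ.real A := measureReal_mono Set.inter_subset_left
  have h2 : μ.real A * μ.real B ≤ μ.real A :=
    mul_le_of_le_one_right measureReal_nonneg measureReal_le_one
  have h3 : 0 ≤ μ.real (A ∩ (shift^[n]) ⁻¹' B) := measureReal_nonneg
  have h4 : 0 ≤ μ.real A * μ.real B := mul_nonneg measureReal_nonneg measureReal_nonneg
  rw [abs_le]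
  constructor <;> linarith

lemma cs_union_right (n : ℕ) {A B C : Set X} (hA : MeasurableSet A) (hC : MeasurableSet C)
    (h : Disjoint B C) : cs μ n A (B ∪ C) = cs μ n A B + cs μ n A C := by
  unfold cs
  rw [Set.preimage_union, Set.inter_union_distrib_left, measureReal_union h hC,
    measureReal_union]
  · ring
  · exact (h.preimage _).mono Set.inter_subset_right Set.inter_subset_right
  · exact hA.inter (measurable_shift_iter n hC)

lemma cs_union_left (n : ℕ) {A B C : Set X} (hA : MeasurableSet A) (hC : MeasurableSet C)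
    (h : Disjoint B C) : cs μ n (B ∪ C) A = cs μ n B A + cs μ n C A := by
  unfold cs
  rw [Set.union_inter_distrib_right, measureReal_union h hC, measureReal_union]
  · ring
  · exact h.mono Set.inter_subset_left Set.inter_subset_left
  · exact hC.inter (measurable_shift_iter n hA)

lemma tail_small {f : ℕ → Set X} (_hd : Pairwise (Function.onFun Disjoint f))
    (hm : ∀ i, MeasurableSet (f i)) {ε : ℝ} (hε : 0 < ε) :
    ∃ K, μ.real ((⋃ i, f i) \ ⋃ i ∈ Finset.range K, f i) < ε := by
  have h1 : Tendsto (fun K => μ ((⋃ i, f i) \ ⋃ i ∈ Finset.range K, f i)) atTop (𝓝 0) := by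
    have h2 : (⋂ K, ((⋃ i, f i) \ ⋃ i ∈ Finset.range K, f i)) = ∅ := by
      ext x
      simp only [Set.mem_iInter, Set.mem_empty_iff_false, iff_false, not_forall]
      by_cases hx : x ∈ ⋃ i, f i
      · obtain ⟨i, hi⟩ := Set.mem_iUnion.1 hx
        refine ⟨i + 1, fun h => h.2 ?_⟩
        simp only [Set.mem_iUnion, Finset.mem_range]
        exact ⟨i, Nat.lt_succ_self i, hi⟩
      · exact ⟨0, fun h => hx h.1⟩
    rw [← measure_empty (μ := μ), ← h2]
    refine tendsto_measure_iInter_atTop (fun K => ?_) ?_ ⟨0, measure_ne_top _ _⟩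
    · exact (MeasurableSet.diff (MeasurableSet.iUnion hm)
        (Finset.measurableSet_biUnion _ fun i _ => hm i)).nullMeasurableSet
    · intro a c hac
      refine Set.sdiff_subset_sdiff_right ?_
      exact Set.biUnion_subset_biUnion_left fun i hi =>
        Finset.mem_range.2 (lt_of_lt_of_le (Finset.mem_range.1 hi) hac)
  have h3 := (ENNReal.tendsto_toReal ENNReal.zero_ne_top).comp h1
  simp only [ENNReal.toReal_zero] at h3
  obtain ⟨K, hK⟩ := (h3.eventually (gt_mem_nhds hε)).exists
  exact ⟨K, hK⟩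

lemma cz_right (hμ : ShiftInvariant μ) {A : Set X} (hA : MeasurableSet A)
    (h : ∀ C ∈ cyls, CZ (fun n => cs μ n A C)) :
    ∀ B, MeasurableSet B → CZ (fun n => cs μ n A B) := by
  intro B hB
  refine MeasurableSpace.induction_on_inter (C := fun B _ => CZ (fun n => cs μ n A B))
    generateFrom_cyls isPiSystem_cyls ?_ h ?_ ?_ B hB
  · simpa [cs] using CZ.zero
  · intro t ht h1
    have h2 := h1.const_mul (-1)
    refine h2.of_abs_le fun n => ?_
    rw [cs_compl_right hμ n hA ht]
    simp
  · intro f hd hm h1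
    refine CZ.of_approx fun ε hε => ?_
    obtain ⟨K, hK⟩ := tail_small (μ := μ) hd hm hε
    have h4 : ∀ K, CZ (fun n => cs μ n A (⋃ i ∈ Finset.range K, f i)) := by
      intro K
      induction K with
      | zero => simpa [cs] using CZ.zero
      | succ K ih =>
        refine (ih.add (h1 K)).of_abs_le fun n => le_of_eq ?_
        rw [Finset.range_add_one, Finset.set_biUnion_insert, Set.union_comm,
          cs_union_right n hA (hm K)]
        rw [Set.disjoint_iUnion₂_left]
        intro i hi
        exact hd (by have := Finset.mem_range.1 hi; omega)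
    refine ⟨_, h4 K, fun n => ?_⟩
    have hsub : (⋃ i ∈ Finset.range K, f i) ⊆ ⋃ i, f i :=
      Set.iUnion₂_subset fun i _ => Set.subset_iUnion f i
    have hm2 : MeasurableSet ((⋃ i, f i) \ ⋃ i ∈ Finset.range K, f i) :=
      MeasurableSet.diff (MeasurableSet.iUnion hm) (Finset.measurableSet_biUnion _ fun i _ => hm i)
    have h5 := cs_union_right (μ := μ) n hA hm2
      (Set.disjoint_sdiff_right (s := ⋃ i ∈ Finset.range K, f i))
    rw [Set.union_sdiff_cancel hsub] at h5
    rw [h5]
    refine (abs_add_le _ _).trans ?_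
    have h6 := abs_cs_le_right (μ := μ) hμ n (A := A) hm2
    linarith

lemma cz_left (hμ : ShiftInvariant μ) {B : Set X} (hB : MeasurableSet B)
    (h : ∀ C ∈ cyls, CZ (fun n => cs μ n C B)) :
    ∀ A, MeasurableSet A → CZ (fun n => cs μ n A B) := by
  intro A hA
  refine MeasurableSpace.induction_on_inter (C := fun A _ => CZ (fun n => cs μ n A B))
    generateFrom_cyls isPiSystem_cyls ?_ h ?_ ?_ A hA
  · simpa [cs] using CZ.zero
  · intro t ht h1
    have h2 := h1.const_mul (-1)
    refine h2.of_abs_le fun n => ?_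
    rw [cs_compl_left hμ n ht hB]
    simp
  · intro f hd hm h1
    refine CZ.of_approx fun ε hε => ?_
    obtain ⟨K, hK⟩ := tail_small (μ := μ) hd hm hε
    have h4 : ∀ K, CZ (fun n => cs μ n (⋃ i ∈ Finset.range K, f i) B) := by
      intro K
      induction K with
      | zero => simpa [cs] using CZ.zero
      | succ K ih =>
        refine (ih.add (h1 K)).of_abs_le fun n => le_of_eq ?_
        rw [Finset.range_add_one, Finset.set_biUnion_insert, Set.union_comm,
          cs_union_left n hB (hm K)]
        rw [Set.disjoint_iUnion₂_left]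
        intro i hi
        exact hd (by have := Finset.mem_range.1 hi; omega)
    refine ⟨_, h4 K, fun n => ?_⟩
    have hsub : (⋃ i ∈ Finset.range K, f i) ⊆ ⋃ i, f i :=
      Set.iUnion₂_subset fun i _ => Set.subset_iUnion f i
    have hm2 : MeasurableSet ((⋃ i, f i) \ ⋃ i ∈ Finset.range K, f i) :=
      MeasurableSet.diff (MeasurableSet.iUnion hm) (Finset.measurableSet_biUnion _ fun i _ => hm i)
    have h5 := cs_union_left (μ := μ) n hB hm2
      (Set.disjoint_sdiff_right (s := ⋃ i ∈ Finset.range K, f i))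
    rw [Set.union_sdiff_cancel hsub] at h5
    rw [h5]
    refine (abs_add_le _ _).trans ?_
    have h6 := abs_cs_le_left (μ := μ) n (A := (⋃ i, f i) \ ⋃ i ∈ Finset.range K, f i) (B := B)
    linarith

/-- The correlation of two characters. -/
noncomputable def cd (μ : Measure X) (A B : Finset ℤ) (n : ℕ) : ℝ :=
  ∫ x, sg (lin A x) * sg (lin B (shift^[n] x)) ∂μ - (∫ x, sg (lin A x) ∂μ) * ∫ x, sg (lin B x) ∂μ

lemma cs_cyl (A B : Finset ℤ) (z y : X) (n : ℕ) : cs μ n (cylx A z) (cylx B y) =
    ∑ A' ∈ A.powerset, ∑ B' ∈ B.powerset, ((1 / 2) ^ A.card * sg (lin A' z)) *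
      ((1 / 2) ^ B.card * sg (lin B' y)) * cd μ A' B' n := by
  unfold cs
  have h1 : μ.real (cylx A z ∩ (shift^[n]) ⁻¹' (cylx B y)) =
      ∫ x, (cylx A z).indicator (fun _ => (1 : ℝ)) x *
        (cylx B y).indicator (fun _ => (1 : ℝ)) (shift^[n] x) ∂μ := by
    have h2 : ∀ x, (cylx A z).indicator (fun _ => (1 : ℝ)) x *
        (cylx B y).indicator (fun _ => (1 : ℝ)) (shift^[n] x) =
        (cylx A z ∩ (shift^[n]) ⁻¹' (cylx B y)).indicator (fun _ => (1 : ℝ)) x := by
      intro x
      by_cases h3 : x ∈ cylx A z <;> by_cases h4 : shift^[n] x ∈ cylx B y <;>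
        simp [Set.indicator, h3, h4]
    simp only [h2]
    rw [integral_indicator ((measurableSet_cylx A z).inter
      (measurable_shift_iter n (measurableSet_cylx B y)))]
    simp
  have hint : ∀ A' B' : Finset ℤ, Integrable (fun x => sg (lin A' x) * sg (lin B' (shift^[n] x))) μ := by
    intro A' B'
    refine Integrable.of_bound ?_ 1 ?_
    · exact ((measurable_sg.comp (measurable_lin A')).mul (measurable_sg.comp
        ((measurable_lin B').comp (measurable_shift_iter n)))).aestronglyMeasurable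
    · exact Eventually.of_forall fun x => by
        rw [Real.norm_eq_abs, abs_mul, abs_sg, abs_sg, mul_one]
  rw [h1]
  simp only [indicator_cylx, Finset.sum_mul_sum]
  rw [integral_finsetSum]
  · rw [real_cylx, real_cylx, Finset.sum_mul_sum, ← Finset.sum_sub_distrib]
    refine Finset.sum_congr rfl fun A' _ => ?_
    rw [integral_finsetSum]
    · rw [← Finset.sum_sub_distrib]
      refine Finset.sum_congr rfl fun B' _ => ?_
      have h5 : ∀ x, (1 / 2) ^ A.card * sg (lin A' z) * sg (lin A' x) *
          ((1 / 2) ^ B.card * sg (lin B' y) * sg (lin B' (shift^[n] x))) =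
          ((1 / 2) ^ A.card * sg (lin A' z)) * ((1 / 2) ^ B.card * sg (lin B' y)) *
          (sg (lin A' x) * sg (lin B' (shift^[n] x))) := fun x => by ring
      simp only [h5]
      rw [integral_const_mul]
      unfold cd
      ring
    · intro B' _
      have h5 : ∀ x, (1 / 2) ^ A.card * sg (lin A' z) * sg (lin A' x) *
          ((1 / 2) ^ B.card * sg (lin B' y) * sg (lin B' (shift^[n] x))) =
          ((1 / 2) ^ A.card * sg (lin A' z)) * ((1 / 2) ^ B.card * sg (lin B' y)) *
          (sg (lin A' x) * sg (lin B' (shift^[n] x))) := fun x => by ring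
      simp only [h5]
      exact (hint A' B').const_mul _
  · intro A' _
    refine integrable_finsetSum _ fun B' _ => ?_
    have h5 : ∀ x, (1 / 2) ^ A.card * sg (lin A' z) * sg (lin A' x) *
        ((1 / 2) ^ B.card * sg (lin B' y) * sg (lin B' (shift^[n] x))) =
        ((1 / 2) ^ A.card * sg (lin A' z)) * ((1 / 2) ^ B.card * sg (lin B' y)) *
        (sg (lin A' x) * sg (lin B' (shift^[n] x))) := fun x => by ring
    simp only [h5]
    exact (hint A' B').const_mul _

/-- Weak mixing follows from the characters. -/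
theorem wm_of_char (hμ : ShiftInvariant μ) (h : ∀ A B : Finset ℤ, CZ (cd μ A B)) :
    WeaklyMixing μ := by
  intro A B hA hB
  have h1 : ∀ C ∈ cyls, ∀ D ∈ cyls, CZ (fun n => cs μ n C D) := by
    rintro _ ⟨C, z, rfl⟩ _ ⟨D, y, rfl⟩
    simp only [cs_cyl]
    refine CZ.sum _ _ fun A' _ => CZ.sum _ _ fun B' _ => ?_
    exact (h A' B').const_mul _
  have h2 : ∀ C ∈ cyls, ∀ D, MeasurableSet D → CZ (fun n => cs μ n C D) := by
    rintro _ ⟨C, z, rfl⟩
    exact cz_right hμ (measurableSet_cylx C z) (fun D hD => h1 _ ⟨C, z, rfl⟩ D hD)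
  exact cz_left hμ hB (fun C hC => h2 C hC B hB) A hA

end mixing

end Pool.Agent.Q181.XR
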