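import Pool.Agent.Q181.XR.Limit

/-!
# A weakly mixing measure driven to the zero point mass
-/

set_option autoImplicit false

open MeasureTheory Filter Topology

namespace Pool.Agent.Q181.XR

/-- The additive functional `x ↦ (F^n x)_j`. -/
def linF (n : ℕ) (j : ℤ) : X →+ ZMod 2 where
  toFun x := F^[n] x j
  map_zero' := by
    have : F^[n] (0 : X) = 0 := by
      induction n with
      | zero => rfl
      | succ n ih => rw [Function.iterate_succ_apply', ih]; funext i; simp [F]
    rw [this]; rfl
  map_add' x y := by
    have : F^[n] (x + y) = F^[n] x + F^[n] y := by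
      induction n with
      | zero => rfl
      | succ n ih =>
        rw [Function.iterate_succ_apply', ih, Function.iterate_succ_apply',
          Function.iterate_succ_apply']
        funext i
        simp only [F, Pi.add_apply]
        ring
    rw [this]; rfl

lemma linF_apply (n : ℕ) (j : ℤ) (x : X) : linF n j x = F^[n] x j := rfl

lemma continuous_F : Continuous F :=
  continuous_pi fun i => (continuous_apply i).add (continuous_apply (i + 1))

lemma continuous_shift : Continuous shift := continuous_pi fun i => continuous_apply (i + 1)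

lemma measurable_F : Measurable F :=
  measurable_pi_lambda _ fun i => (measurable_pi_apply i).add (measurable_pi_apply (i + 1))

lemma continuous_lin (A : Finset ℤ) : Continuous (fun x => lin A x) := by
  simp only [lin_apply]
  exact continuous_finsetSum A fun i _ => continuous_apply i

lemma continuous_sg : Continuous sg := continuous_of_discreteTopology

lemma abs_exp_sub_exp (u v : ℝ) (hu : 0 ≤ u) (hv : 0 ≤ v) :
    |Real.exp (-2 * u) - Real.exp (-2 * v)| ≤ 2 * |u - v| := by
  wlog h : u ≤ v generalizing u v with H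
  · rw [abs_sub_comm, abs_sub_comm u v]
    exact H v u hv hu (le_of_not_ge h)
  have h1 : Real.exp (-2 * v) ≤ Real.exp (-2 * u) := Real.exp_le_exp.2 (by linarith)
  rw [abs_of_nonneg (by linarith), abs_of_nonpos (by linarith)]
  have h2 : Real.exp (-2 * v) = Real.exp (-2 * u) * Real.exp (-2 * (v - u)) := by
    rw [← Real.exp_add]; congr 1; ring
  have h3 : -2 * (v - u) + 1 ≤ Real.exp (-2 * (v - u)) := Real.add_one_le_exp _
  have h4 : Real.exp (-2 * u) ≤ 1 := Real.exp_le_one_iff.2 (by linarith)
  have h5 := Real.exp_pos (-2 * u)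
  rw [h2]
  nlinarith

/-- the product tends to zero -/
lemma tendsto_prodp : Tendsto (fun k => prodp 0 k / 2 ^ k) atTop (𝓝 0) := by
  have h1 : ∀ k, prodp 0 k / 2 ^ k ≤
      Real.exp (-((1 / 6) * ∑ i ∈ Finset.range k, (1 / ((i : ℝ) + 1)))) := by
    intro k
    have h2 : prodp 0 k / 2 ^ k = ∏ i ∈ Finset.range k, (1 - p i / 2) := by
      unfold prodp
      have : (2 : ℝ) ^ k = ∏ i ∈ Finset.range k, (2 : ℝ) := by simp
      rw [this, ← Finset.prod_div_distrib]
      refine Finset.prod_congr rfl fun i _ => ?_
      rw [zero_add]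
      ring
    rw [h2, Finset.mul_sum, ← Finset.sum_neg_distrib, Real.exp_sum]
    refine Finset.prod_le_prod (fun i _ => ?_) fun i _ => ?_
    · have := p_le i; linarith
    · have h3 : -(1 / 6 * (1 / ((i : ℝ) + 1))) + 1 ≤
          Real.exp (-(1 / 6 * (1 / ((i : ℝ) + 1)))) := Real.add_one_le_exp _
      have h4 : 1 / 3 * (1 / ((i : ℝ) + 1)) ≤ p i := by
        unfold p
        have hi : (0 : ℝ) ≤ i := Nat.cast_nonneg i
        rw [div_mul_div_comm, one_mul]
        apply one_div_le_one_div_of_le (by positivity)
        nlinarith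
      linarith
  have h5 : Tendsto (fun k => Real.exp (-((1 / 6) * ∑ i ∈ Finset.range k, (1 / ((i : ℝ) + 1)))))
      atTop (𝓝 0) := by
    refine Real.tendsto_exp_neg_atTop_nhds_zero.comp ?_
    exact Real.tendsto_sum_range_one_div_nat_succ_atTop.const_mul_atTop (by norm_num)
  refine squeeze_zero (fun k => ?_) h1 h5
  unfold prodp
  refine div_nonneg (Finset.prod_nonneg fun i _ => ?_) (by positivity)
  have := p_le (0 + i)
  linarith

lemma prodp_nonneg (k : ℕ) : 0 ≤ prodp 0 k := by
  unfold prodp
  refine Finset.prod_nonneg fun i _ => ?_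
  have := p_le (0 + i)
  linarith

/-- There is a probability measure whose characters are limits. -/
lemma exists_limit : ∃ (μ : ProbabilityMeasure X), ∀ l : X →+ ZMod 2, Continuous (fun x => l x) →
    Tendsto (fun N => Real.exp (-2 * psi N l)) (hyperfilter ℕ : Filter ℕ)
      (𝓝 (∫ x, sg (l x) ∂(μ : Measure X))) := by
  choose μs hμs using exists_approx
  let 𝒰 : Ultrafilter (ProbabilityMeasure X) := (hyperfilter ℕ).map μs
  refine ⟨𝒰.lim, fun l hl => ?_⟩
  have h1 : Tendsto μs (hyperfilter ℕ : Filter ℕ) (𝓝 𝒰.lim) := by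
    have := 𝒰.le_nhds_lim
    exact this
  rw [ProbabilityMeasure.tendsto_iff_forall_integral_tendsto] at h1
  have h2 := h1 (BoundedContinuousFunction.mkOfCompact ⟨fun x => sg (l x), continuous_sg.comp hl⟩)
  simp only [BoundedContinuousFunction.mkOfCompact_apply, ContinuousMap.coe_mk] at h2
  refine h2.congr fun N => ?_
  exact hμs N l

/-- **Main theorem.** -/
theorem exists_measure : ∃ μ : Measure X, IsProbabilityMeasure μ ∧ ShiftInvariant μ ∧
    WeaklyMixing μ ∧ μ ≠ Measure.dirac 0 ∧
    ∀ f : C(X, ℝ), Tendsto (fun n => ∫ x, f x ∂(μ.map (F^[n]))) atTop (𝓝 (f 0)) := by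
  obtain ⟨μ', hμ⟩ := exists_limit
  let μ : Measure X := μ'
  have hprob : IsProbabilityMeasure μ := μ'.2
  have hlin : ∀ A : Finset ℤ, Tendsto (fun N => Real.exp (-2 * psi N (lin A)))
      (hyperfilter ℕ : Filter ℕ) (𝓝 (∫ x, sg (lin A x) ∂μ)) := fun A =>
    hμ (lin A) (continuous_lin A)
  have hcont2 : ∀ (A B : Finset ℤ) (n : ℕ), Continuous (fun x => lin2 A B n x) := by
    intro A B n
    exact (continuous_lin A).add ((continuous_lin B).comp (continuous_shift.iterate n))
  have hlin2 : ∀ (A B : Finset ℤ) (n : ℕ), Tendsto (fun N => Real.exp (-2 * psi N (lin2 A B n)))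
      (hyperfilter ℕ : Filter ℕ) (𝓝 (∫ x, sg (lin2 A B n x) ∂μ)) := fun A B n =>
    hμ (lin2 A B n) (hcont2 A B n)
  -- shift invariance
  have hinv : ShiftInvariant μ := by
    have hp2 : IsProbabilityMeasure (μ.map shift) :=
      Measure.isProbabilityMeasure_map measurable_shift.aemeasurable
    refine ext_char _ _ fun A => ?_
    have hms : AEStronglyMeasurable (fun x => sg (lin A x)) (μ.map shift) :=
      (measurable_sg.comp (measurable_lin A)).aestronglyMeasurable
    rw [integral_map measurable_shift.aemeasurable hms]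
    have h1 := hlin2 ∅ A 1
    have h2 : ∀ x, lin2 ∅ A 1 x = lin A (shift x) := by
      intro x
      change lin ∅ x + lin A (shift^[1] x) = _
      simp [lin_apply]
    simp only [h2] at h1
    have h3 : ∀ N, psi N (lin2 ∅ A 1) = psi N (lin A) := by
      intro N
      rw [← psi_shift N (lin A)]
      congr 1
      funext x
      exact h2 x
    simp only [h3] at h1
    exact tendsto_nhds_unique h1 (hlin A)
  -- the functional of the automaton
  have hF : ∀ n j, Tendsto (fun N => Real.exp (-2 * W N 0 n)) (hyperfilter ℕ : Filter ℕ)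
      (𝓝 (∫ x, sg (F^[n] x j) ∂μ)) := by
    intro n j
    have h1 := hμ (linF n j) ((continuous_apply j).comp (continuous_F.iterate n))
    refine h1.congr fun N => ?_
    rw [← psi_iter N n j]
    rfl
  refine ⟨μ, hprob, hinv, ?_, ?_, ?_⟩
  · -- weak mixing
    refine wm_of_char hinv fun A B => ?_
    have hk : ∀ k, ∑ n ∈ Finset.range (2 ^ k), |cd μ A B n| ≤ 4 * (A.card * B.card) * prodp 0 k := by
      intro k
      have h1 : ∀ n, Tendsto (fun N => |Real.exp (-2 * psi N (lin2 A B n)) -
          Real.exp (-2 * psi N (lin A)) * Real.exp (-2 * psi N (lin B))|)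
          (hyperfilter ℕ : Filter ℕ) (𝓝 |cd μ A B n|) := by
        intro n
        have h2 := ((hlin2 A B n).sub ((hlin A).mul (hlin B))).abs
        unfold cd
        have h3 : ∀ x, sg (lin A x) * sg (lin B (shift^[n] x)) = sg (lin2 A B n x) := by
          intro x
          change _ = sg (lin A x + lin B (shift^[n] x))
          rw [sg_add]
        simp only [h3]
        exact h2
      have h4 := tendsto_finsetSum (Finset.range (2 ^ k)) fun n _ => h1 n
      refine le_of_tendsto h4 ?_
      have h5 : ∀ᶠ N in (hyperfilter ℕ : Filter ℕ), k ≤ N :=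
        (Nat.hyperfilter_le_atTop) (eventually_ge_atTop k)
      filter_upwards [h5] with N hN
      calc ∑ n ∈ Finset.range (2 ^ k), |Real.exp (-2 * psi N (lin2 A B n)) -
          Real.exp (-2 * psi N (lin A)) * Real.exp (-2 * psi N (lin B))|
          ≤ ∑ n ∈ Finset.range (2 ^ k), 4 * ∑ a ∈ A, ∑ c ∈ B, cc N a (c + n) := by
            refine Finset.sum_le_sum fun n _ => ?_
            rw [← Real.exp_add, ← mul_add]
            refine (abs_exp_sub_exp _ _ (psi_nonneg _ _)
              (add_nonneg (psi_nonneg _ _) (psi_nonneg _ _))).trans ?_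
            have h6 := psi_lin2 N A B n
            rw [← sub_sub]
            linarith
        _ = 4 * ∑ a ∈ A, ∑ c ∈ B, ∑ n ∈ Finset.range (2 ^ k), cc N a (c + n) := by
            rw [← Finset.mul_sum]
            congr 1
            rw [Finset.sum_comm]
            refine Finset.sum_congr rfl fun a _ => ?_
            rw [Finset.sum_comm]
        _ ≤ 4 * ∑ a ∈ A, ∑ c ∈ B, prodp 0 k := by
            refine mul_le_mul_of_nonneg_left ?_ (by norm_num)
            exact Finset.sum_le_sum fun a _ => Finset.sum_le_sum fun c _ => cc_sum N k hN a c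
        _ = 4 * (A.card * B.card) * prodp 0 k := by
            simp only [Finset.sum_const, nsmul_eq_mul]
            ring
    have hclog : Tendsto (fun L : ℕ => Nat.clog 2 L) atTop atTop := by
      refine tendsto_atTop.2 fun k => ?_
      filter_upwards [eventually_gt_atTop (2 ^ k)] with L hL
      exact ((Nat.lt_clog_iff_pow_lt (by norm_num)).2 hL).le
    have h7 : Tendsto (fun L : ℕ => 8 * ((A.card : ℝ) * B.card) *
        (prodp 0 (Nat.clog 2 L) / 2 ^ (Nat.clog 2 L))) atTop (𝓝 0) := by
      have := (tendsto_prodp.comp hclog).const_mul (8 * ((A.card : ℝ) * B.card))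
      rw [mul_zero] at this
      exact this
    refine squeeze_zero' (Eventually.of_forall fun L => ?_) ?_ h7
    · exact mul_nonneg (by positivity) (Finset.sum_nonneg fun _ _ => abs_nonneg _)
    · filter_upwards [eventually_gt_atTop 1] with L hL
      set k := Nat.clog 2 L with hkdef
      have h8 : L ≤ 2 ^ k := Nat.le_pow_clog (by norm_num) L
      have h9 : 2 ^ k < 2 * L := by
        have hkpos : 0 < k := Nat.clog_pos (by norm_num) hL
        have h10 : 2 ^ (k - 1) < L := by
          rw [hkdef]
          exact Nat.pow_pred_clog_lt_self (by norm_num) hL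
        obtain ⟨m, hm⟩ : ∃ m, k = m + 1 := ⟨k - 1, by omega⟩
        rw [hm] at h10 ⊢
        rw [pow_succ]
        simp only [Nat.add_sub_cancel] at h10
        omega
      have hLpos : (0 : ℝ) < L := by exact_mod_cast (by omega : 0 < L)
      have h11 : ∑ n ∈ Finset.range L, |cd μ A B n| ≤ 4 * (A.card * B.card) * prodp 0 k := by
        refine le_trans ?_ (hk k)
        refine Finset.sum_le_sum_of_subset_of_nonneg ?_ fun _ _ _ => abs_nonneg _
        intro n hn
        rw [Finset.mem_range] at hn ⊢
        omega
      have h12 : (2 : ℝ) ^ k ≤ 2 * L := by exact_mod_cast h9.le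
      have h13 : (0 : ℝ) < 2 ^ k := by positivity
      have h14 : 1 / (L : ℝ) ≤ 2 / 2 ^ k := by
        rw [div_le_div_iff₀ hLpos h13]
        linarith
      have h15 : 0 ≤ 4 * ((A.card : ℝ) * B.card) * prodp 0 k :=
        mul_nonneg (by positivity) (prodp_nonneg k)
      calc 1 / (L : ℝ) * ∑ n ∈ Finset.range L, |cd μ A B n|
          ≤ 1 / (L : ℝ) * (4 * (A.card * B.card) * prodp 0 k) :=
            mul_le_mul_of_nonneg_left h11 (by positivity)
        _ ≤ 2 / 2 ^ k * (4 * (A.card * B.card) * prodp 0 k) :=
            mul_le_mul_of_nonneg_right h14 h15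
        _ = 8 * (A.card * B.card) * (prodp 0 k / 2 ^ k) := by ring
  · -- nontrivial
    intro heq
    have h1 := hF 0 0
    simp only [W_at_zero, mul_one, Function.iterate_zero, id_eq] at h1
    rw [heq, integral_dirac] at h1
    have h2 := tendsto_nhds_unique h1 tendsto_const_nhds
    have h3 : Real.exp (-2) < 1 := Real.exp_lt_one_iff.2 (by norm_num)
    have h4 : sg ((0 : X) 0) = 1 := sg_zero
    rw [h4] at h2
    linarith
  · -- convergence
    intro f
    have hsmall : ∀ (n : ℕ), 1 ≤ n → ∀ j : ℤ,
        μ.real {x | F^[n] x j ≠ 0} ≤ 4 * p (Nat.log 2 n) := by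
      intro n hn j
      have hmeas : MeasurableSet {x : X | F^[n] x j ≠ 0} :=
        ((measurable_pi_apply j).comp (measurable_F.iterate n)) (MeasurableSet.of_discrete (s := {z | z ≠ 0}))
      have h1 : Real.exp (-8 * p (Nat.log 2 n)) ≤ ∫ x, sg (F^[n] x j) ∂μ := by
        refine ge_of_tendsto' (hF n j) fun N => ?_
        refine Real.exp_le_exp.2 ?_
        have := W_le N 0 n hn
        rw [zero_add] at this
        linarith
      have h2 : ∀ x, sg (F^[n] x j) = 1 - 2 * {x : X | F^[n] x j ≠ 0}.indicator (fun _ => (1 : ℝ)) x := by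
        intro x
        by_cases hx : F^[n] x j = 0
        · simp [Set.indicator, hx, sg_zero]
        · simp only [sg, hx, if_false, Set.indicator, Set.mem_ofPred_eq, ne_eq, not_false_eq_true,
            if_true]
          norm_num
      simp only [h2] at h1
      rw [integral_sub (integrable_const _) (((integrable_const (1 : ℝ)).indicator hmeas).const_mul 2),
        integral_const_mul, integral_indicator hmeas] at h1
      simp only [integral_const, smul_eq_mul, mul_one, probReal_univ,
        measureReal_restrict_apply_univ] at h1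
      have h3 := Real.add_one_le_exp (-8 * p (Nat.log 2 n))
      linarith
    rw [Metric.tendsto_atTop]
    intro ε hε
    -- a neighbourhood of zero
    have hcont : ∃ I : Finset ℤ, ∀ x : X, (∀ i ∈ I, x i = 0) → |f x - f 0| < ε / 2 := by
      have h1 : f ⁻¹' (Metric.ball (f 0) (ε / 2)) ∈ 𝓝 (0 : X) :=
        f.continuous.continuousAt (Metric.ball_mem_nhds _ (by linarith))
      rw [mem_nhds_iff] at h1
      obtain ⟨V, hV1, hV2, hV3⟩ := h1
      rw [isOpen_pi_iff] at hV2
      obtain ⟨I, u, hu1, hu2⟩ := hV2 0 hV3
      refine ⟨I, fun x hx => ?_⟩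
      have h2 : x ∈ V := by
        apply hu2
        intro i hi
        rw [hx i hi]
        exact (hu1 i hi).2
      have h3 := hV1 h2
      rw [Set.mem_preimage, Metric.mem_ball, Real.dist_eq] at h3
      exact h3
    obtain ⟨I, hI⟩ := hcont
    obtain ⟨M, hM⟩ : ∃ M : ℝ, ∀ x, |f x| ≤ M := ⟨‖f‖, fun x => by
      rw [← Real.norm_eq_abs]; exact f.norm_coe_le_norm x⟩
    have hM0 : 0 ≤ M := (abs_nonneg _).trans (hM 0)
    -- choose n large
    have hlim : Tendsto (fun n : ℕ => 2 * M * (I.card * (4 * p (Nat.log 2 n)))) atTop (𝓝 0) := by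
      have h1 : Tendsto p atTop (𝓝 0) := by
        have h2 : Tendsto (fun i : ℕ => (i : ℝ) + 3) atTop atTop :=
          tendsto_natCast_atTop_atTop.atTop_add tendsto_const_nhds
        have h3 := tendsto_inv_atTop_zero.comp h2
        refine h3.congr fun i => ?_
        simp [p, Function.comp_apply]
      have h2 : Tendsto (fun n : ℕ => Nat.log 2 n) atTop atTop := by
        refine tendsto_atTop.2 fun k => ?_
        filter_upwards [eventually_ge_atTop (2 ^ k)] with n hn
        have : n ≠ 0 := by
          have : 0 < 2 ^ k := by positivity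
          omega
        exact (Nat.le_log_iff_pow_le (by norm_num) this).2 hn
      have h3 := (((h1.comp h2).const_mul 4).const_mul (I.card : ℝ)).const_mul (2 * M)
      simp only [mul_zero] at h3
      exact h3
    obtain ⟨n0, hn0⟩ := (Metric.tendsto_atTop.1 hlim) (ε / 2) (by linarith)
    refine ⟨n0 + 1, fun n hn => ?_⟩
    have h1 := hn0 n (by omega)
    rw [Real.dist_eq, sub_zero] at h1
    have h1' := (abs_lt.1 h1).2
    have hFm : Measurable (F^[n]) := measurable_F.iterate n
    rw [integral_map hFm.aemeasurable f.continuous.aestronglyMeasurable, Real.dist_eq]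
    set E : Set X := ⋃ i ∈ I, {x | F^[n] x i ≠ 0} with hE
    have hEm : MeasurableSet E := Finset.measurableSet_biUnion _ fun i _ =>
      ((measurable_pi_apply i).comp hFm) (MeasurableSet.of_discrete (s := {z | z ≠ 0}))
    have hEsmall : μ.real E ≤ I.card * (4 * p (Nat.log 2 n)) := by
      refine (measureReal_biUnion_finset_le I _).trans ?_
      refine (Finset.sum_le_sum fun i _ => hsmall n (by omega) i).trans ?_
      simp
    have hbound : ∀ x, |f (F^[n] x) - f 0| ≤ ε / 2 + 2 * M * E.indicator (fun _ => (1 : ℝ)) x := by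
      intro x
      by_cases hx : x ∈ E
      · rw [Set.indicator_of_mem hx]
        have h2 := hM (F^[n] x)
        have h3 := hM 0
        have h4 := abs_sub (f (F^[n] x)) (f 0)
        linarith
      · rw [Set.indicator_of_notMem hx]
        have h2 := hI (F^[n] x) (by
          intro i hi
          by_contra hne
          apply hx
          rw [hE]
          simp only [Set.mem_iUnion]
          exact ⟨i, hi, hne⟩)
        linarith
    have hint1 : Integrable (fun x => f (F^[n] x)) μ := by
      refine Integrable.of_bound (f.continuous.measurable.comp hFm).aestronglyMeasurable M ?_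
      exact Eventually.of_forall fun x => by rw [Real.norm_eq_abs]; exact hM _
    have hint2 : Integrable (fun x => ε / 2 + 2 * M * E.indicator (fun _ => (1 : ℝ)) x) μ :=
      (integrable_const _).add (((integrable_const (1 : ℝ)).indicator hEm).const_mul _)
    have h5 : ∫ x, f (F^[n] x) ∂μ - f 0 = ∫ x, (f (F^[n] x) - f 0) ∂μ := by
      rw [integral_sub hint1 (integrable_const _)]
      simp
    rw [h5]
    calc |∫ x, (f (F^[n] x) - f 0) ∂μ| ≤ ∫ x, |f (F^[n] x) - f 0| ∂μ := abs_integral_le_integral_abs
      _ ≤ ∫ x, (ε / 2 + 2 * M * E.indicator (fun _ => (1 : ℝ)) x) ∂μ :=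
        integral_mono (hint1.sub (integrable_const _)).abs hint2 hbound
      _ = ε / 2 + 2 * M * μ.real E := by
        rw [integral_add (integrable_const _) (((integrable_const (1 : ℝ)).indicator hEm).const_mul _),
          integral_const_mul, integral_indicator hEm]
        simp
      _ ≤ ε / 2 + 2 * M * (I.card * (4 * p (Nat.log 2 n))) := by
        gcongr
      _ < ε := by linarith

end Pool.Agent.Q181.XR
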